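import Pool.Agent.V11273.PV.G25

/-!
# Equality of periods in families is decided by linear algebra for almost all algebraic parameters

Let `F_j`, `j` in a finite set, be families of varieties (or of mixed motives) over open parts of affine spaces of any
dimensions. A family (`Family X ι`) is given here by an algebraic connection `c ∂_i Y = Y B_i` with an invertible matrix `Y` of
analytic solutions on a nonempty connected open set: a branch of the period matrix, and its Gauss-Manin connection. `galois` is
the group of the constant matrices `g` such that all polynomial relations over `ℂ[x]` between the entries of `Y` are relations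
between the entries of `g Y` (the Zariski closure of the monodromy group). We assume that it is connected, as is the case after
a finite covering of the base. Let `ξ_i`, `i < k`, be arbitrary complex constants, for example the powers of `2 π i`, or any
periods. An expression is a tuple of polynomials `P_i`, `i < k`; its value at a point `x` of the product of the bases is
`∑ ξ_i P_i(Y(x))`. If `x` and the coefficients of the `P_i` are algebraic numbers and the `ξ_i` are periods then this is a
period, and every period of a product of powers of the fibres at `x` and of the constants is of this form.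

**The test.** For every `k` and all `ξ_i`, `i < k`, there is a finite table `R` of relations `∑ ξ_i R_{a,i}(x, Y(x)) = 0`
between the period functions, with coefficients in `ℚ̄[x]`. Given two expressions `P₁`, `P₂` with algebraic coefficients, an
algebraic point `x` and approximations `v₁`, `v₂` of the two values with error at most `δ`, the test answers `true` (equal) if
`P₁ - P₂` is a linear combination of the rows `R_a(x, ·)` of the table at the point `x`: this is a system of linear equations
over a number field. If it is not and `‖v₁ - v₂‖ > 2 δ` then it answers `false` (not equal), and otherwise `none`. The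
algorithm computes the periods with increasing precision and applies the test until it answers.

**Theorem.** The answers of the test are always correct. For all `ε > 0` and `T ≥ T₀`, all number fields `K` of degree at most
`k`, all points `x` with coordinates in `K` of height at most `T` (in the `k`-th compact subset of the base), outside of a set
which lies on at most `C T ^ ε` hypersurfaces of degree at most `D`, it answers for all pairs of expressions over `K` of
partial degrees at most `k` and with coefficients at most `T ^ k / 2`, if the precision is sufficient. So the algorithm halts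
with the correct answer for all pairs of such expressions at all points outside of this sparse set. The numbers `D`, `C`, `T₀`
do not depend on the constants `ξ_i`.

The starting results `ErrorlessOnAlmostAll` and `EqualityOverConstants` treat the periods of Legendre curves, logarithms and
polylogarithms at rational parameters, where the relations between the functions are known explicitly.
-/

set_option autoImplicit false

open Filter NumberField

namespace Pool.Agent.Results.MP_bbe012_lc.LinearAlgebraTest

/-- an algebraic connection on the affine space `ℂ ^ X` with a fundamental matrix `Y` of analytic solutions on `U` -/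
structure Family (X ι : Type) [Fintype X] [DecidableEq X] [Fintype ι] [DecidableEq ι] where
  /-- a nonempty connected open set -/
  U : Set (X → ℂ)
  isOpen : IsOpen U
  connected : IsPreconnected U
  nonempty : U.Nonempty
  /-- the matrix of the solutions (periods) -/
  Y : (X → ℂ) → Matrix ι ι ℂ
  analytic : ∀ a b, AnalyticOnNhd ℂ (fun x => Y x a b) U
  det_ne : ∀ x ∈ U, (Y x).det ≠ 0
  /-- the common denominator of the connection -/
  c : MvPolynomial X ℂ
  c_ne : c ≠ 0
  /-- the numerators -/
  B : X → Matrix ι ι (MvPolynomial X ℂ)
  /-- `c ∂_i Y = Y B_i` -/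
  eqn : ∀ x ∈ U, ∀ i a b, MvPolynomial.eval x c * fderiv ℂ (fun x => Y x a b) x (Pi.single i 1) =
    ∑ e, Y x a e * MvPolynomial.eval x (B i e b)

section
variable {X ι : Type} [Fintype X] [DecidableEq X] [Fintype ι] [DecidableEq ι]

/-- all polynomial relations between the entries of `Y` over `ℂ[x]` are relations between the entries of `g Y` -/
def Preserves (F : Family X ι) (g : Matrix ι ι ℂ) : Prop :=
  ∀ p : MvPolynomial (ι × ι) (MvPolynomial X ℂ),
    (∀ x ∈ F.U, MvPolynomial.eval₂ (MvPolynomial.eval x) (fun v => F.Y x v.1 v.2) p = 0) →
    ∀ x ∈ F.U, MvPolynomial.eval₂ (MvPolynomial.eval x) (fun v => (g * F.Y x) v.1 v.2) p = 0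

/-- the Galois group -/
def Family.galois (F : Family X ι) : Subgroup (GL ι ℂ) where
  carrier := {g | Preserves F (g : Matrix ι ι ℂ)}
  mul_mem' := fun ha hb => (Pool.Agent.V11273.PV.Gal F.U F.Y).mul_mem' ha hb
  one_mem' := (Pool.Agent.V11273.PV.Gal F.U F.Y).one_mem'
  inv_mem' := fun ha => (Pool.Agent.V11273.PV.Gal F.U F.Y).inv_mem' ha

/-- subgroups of finite index which are defined by polynomial equations are the whole group -/
def Connected (G : Subgroup (GL ι ℂ)) : Prop :=
  ∀ H : Subgroup G, H.FiniteIndex → (∃ E : Set (MvPolynomial (ι × ι) ℂ), ∀ h : G, h ∈ H ↔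
    ∀ e ∈ E, MvPolynomial.eval (fun v => ((h : GL ι ℂ) : Matrix ι ι ℂ) v.1 v.2) e = 0) → H = ⊤

end

/-- the field of algebraic numbers -/
abbrev Qbar : Type := algebraicClosure ℚ ℂ

/-- the value at `x` of a polynomial in the coordinates over the algebraic numbers -/
noncomputable def atP {X : Type} (x : X → ℂ) : MvPolynomial X Qbar →+* ℂ :=
  (MvPolynomial.aeval x : MvPolynomial X Qbar →ₐ[Qbar] ℂ).toRingHom

/-- quotients of two integers of `K`, all conjugates of which are at most `T` -/
def HeightLe (K : Type) [Field K] [NumberField K] (T : ℝ) (x : K) : Prop :=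
  ∃ a b : 𝓞 K, b ≠ 0 ∧ house (a : K) ≤ T ∧ house (b : K) ≤ T ∧ x = a / b

/-- `S` is covered by at most `m` hypersurfaces of degree at most `D` -/
def CoveredBy {X : Type} (D m : ℕ) (S : Set (X → ℂ)) : Prop :=
  ∃ Φ : Finset (MvPolynomial X ℂ), Φ.card ≤ m ∧ (∀ P ∈ Φ, P ≠ 0 ∧ P.totalDegree ≤ D) ∧
    ∀ x ∈ S, ∃ P ∈ Φ, MvPolynomial.eval x P = 0

/-- the points of norm at most `k` at distance at least `1 / k` from the complement of `U` -/
def Inner {X : Type} [Fintype X] (U : Set (X → ℂ)) (k : ℕ) : Set (X → ℂ) :=
  {z | ‖z‖ ≤ k ∧ Metric.ball z (k : ℝ)⁻¹ ⊆ U}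

/-- A table with `m` rows `R a`; the row `R a` is a tuple of `k` polynomials in the names `σ` of the periods, with coefficients
in `ℚ̄[x]`. -/
abbrev Table (X σ : Type) (m k : ℕ) : Type := Fin m → Fin k → MvPolynomial σ (MvPolynomial X Qbar)

/-- the row `a` of the table at the point `x` -/
noncomputable def row {X σ : Type} {m k : ℕ} (R : Table X σ m k) (x : X → ℂ) (a : Fin m) : Fin k → MvPolynomial σ ℂ :=
  fun i => (R a i).map (atP x)

open Classical in
/-- The test at the point `x`. Input: two expressions and approximations `v₁`, `v₂` of their values with error at most `δ`. It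
answers `true` (equal) if the difference is a linear combination of the rows of the table at `x`, `false` (not equal) if it is
not and `‖v₁ - v₂‖ > 2 δ`, and `none` (no answer) otherwise. -/
noncomputable def test {X σ : Type} {m k : ℕ} (R : Table X σ m k) (x : X → ℂ) (P₁ P₂ : Fin k → MvPolynomial σ ℂ)
    (v₁ v₂ : ℂ) (δ : ℝ) : Option Bool :=
  if P₁ - P₂ ∈ Submodule.span ℂ (Set.range (row R x)) then some true else
    if 2 * δ < ‖v₁ - v₂‖ then some false else none

section
variable {κ : Type} [Fintype κ] [DecidableEq κ] {X ι : κ → Type} [∀ j, Fintype (X j)] [∀ j, DecidableEq (X j)]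
  [∀ j, Fintype (ι j)] [∀ j, DecidableEq (ι j)]

/-- the tuples of points of the domains of the families -/
def domain (F : ∀ j, Family (X j) (ι j)) : Set ((Σ j, X j) → ℂ) := {z | ∀ j, (fun i => z ⟨j, i⟩) ∈ (F j).U}

/-- the periods of the fibres at `x_j`: the entries of the matrices `Y_j(x_j)` -/
def periods (F : ∀ j, Family (X j) (ι j)) (x : (Σ j, X j) → ℂ) (v : Σ j, ι j × ι j) : ℂ :=
  (F v.1).Y (fun i => x ⟨v.1, i⟩) v.2.1 v.2.2

/-- the value `∑ ξ i * P i (periods at x)` at the point `x` of the expression `P` -/
noncomputable def value (F : ∀ j, Family (X j) (ι j)) {k : ℕ} (ξ : Fin k → ℂ) (x : (Σ j, X j) → ℂ)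
    (P : Fin k → MvPolynomial (Σ j, ι j × ι j) ℂ) : ℂ :=
  ∑ i, ξ i * MvPolynomial.eval (periods F x) (P i)

/-- an expression with coefficients in the integers of `K`, embedded in `ℂ` -/
noncomputable def embed {σ K : Type} [Field K] [NumberField K] (io : K →+* ℂ) {k : ℕ} (P : Fin k → MvPolynomial σ (𝓞 K)) :
    Fin k → MvPolynomial σ ℂ :=
  fun i => (P i).map (io.comp (algebraMap (𝓞 K) K))

/-- The points `s` with coordinates in `K` of height at most `T`, in the compact set `Inner (domain F) k`, at which the test
with the table `R` gives no answer, at any precision `δ`, for some pair of expressions over the integers of `K`, of partial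
degrees at most `k` and with coefficients all conjugates of which are at most `T ^ k / 2`, and for some admissible
approximations. -/
def Unanswered (F : ∀ j, Family (X j) (ι j)) {m : ℕ} (k : ℕ) (ξ : Fin k → ℂ)
    (R : Table (Σ j, X j) (Σ j, ι j × ι j) m k) (K : Type) [Field K] [NumberField K] (io : K →+* ℂ) (T : ℝ) :
    Set ((Σ j, X j) → K) :=
  {s | (∀ i, HeightLe K T (s i)) ∧ (fun i => io (s i)) ∈ Inner (domain F) k ∧
    ∃ P₁ P₂ : Fin k → MvPolynomial (Σ j, ι j × ι j) (𝓞 K),
      (∀ i v, (P₁ i).degreeOf v ≤ k ∧ (P₂ i).degreeOf v ≤ k) ∧
      (∀ i m (φ : K →+* ℂ), ‖φ (((P₁ i).coeff m : 𝓞 K) : K)‖ ≤ T ^ (k : ℝ) / 2 ∧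
        ‖φ (((P₂ i).coeff m : 𝓞 K) : K)‖ ≤ T ^ (k : ℝ) / 2) ∧
      ∀ δ : ℝ, 0 < δ → ∃ v₁ v₂ : ℂ,
        ‖v₁ - value F ξ (fun i => io (s i)) (embed io P₁)‖ ≤ δ ∧
        ‖v₂ - value F ξ (fun i => io (s i)) (embed io P₂)‖ ≤ δ ∧
        test R (fun i => io (s i)) (embed io P₁) (embed io P₂) v₁ v₂ δ = none}

/-- Let `F_j`, `j` in a finite set, be families with connected Galois groups. For all `k ≥ 1` and `ε > 0` there are `D`, `C`
and `T₀` such that for all complex `ξ i`, `i < k`, there is a finite table for which the test is never wrong, at any point of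
the domain and for any two expressions, and which has the following property. For all number fields `K` of degree at most `k`,
embedded in `ℂ`, and all `T ≥ T₀`, the points over `K` of height at most `T`, in the `k`-th compact set, at which the test gives
no answer at any precision for some pair of expressions over `K` of partial degrees at most `k` and of size at most
`T ^ k / 2`, lie on at most `C T ^ ε` hypersurfaces of degree at most `D`, and are at most `C T ^ ε N ^ (d - 1)` in number,
where `d` is the dimension of the product of the bases and `N` the number of the elements of `K` of height at most `T`. -/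
theorem result [Nonempty (Σ j, X j)] (F : ∀ j, Family (X j) (ι j)) (hF : ∀ j, Connected (F j).galois)
    (k : ℕ) (hk : 0 < k) (ε : ℝ) (hε : 0 < ε) :
    ∃ (D : ℕ) (C T₀ : ℝ), ∀ ξ : Fin k → ℂ, ∃ (m : ℕ) (R : Table (Σ j, X j) (Σ j, ι j × ι j) m k),
      (∀ x ∈ domain F, ∀ (P₁ P₂ : Fin k → MvPolynomial (Σ j, ι j × ι j) ℂ) (v₁ v₂ : ℂ) (δ : ℝ),
        ‖v₁ - value F ξ x P₁‖ ≤ δ → ‖v₂ - value F ξ x P₂‖ ≤ δ →
        (test R x P₁ P₂ v₁ v₂ δ = some true → value F ξ x P₁ = value F ξ x P₂) ∧
        (test R x P₁ P₂ v₁ v₂ δ = some false → value F ξ x P₁ ≠ value F ξ x P₂)) ∧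
      ∀ (K : Type) [Field K] [NumberField K], Module.finrank ℚ K ≤ k → ∀ (io : K →+* ℂ) (T : ℝ), T₀ ≤ T →
        CoveredBy D ⌊C * T ^ ε⌋₊ ((fun s i => io (s i)) '' Unanswered F k ξ R K io T) ∧
        (Unanswered F k ξ R K io T).Finite ∧
        ((Unanswered F k ξ R K io T).ncard : ℝ) ≤
          C * T ^ ε * ({x : K | HeightLe K T x}.ncard : ℝ) ^ (Fintype.card (Σ j, X j) - 1) :=
  Pool.Agent.V11273.PV.main_T (U := fun j => (F j).U) (Y := fun j => (F j).Y) (fun j => (F j).connected)
    (fun j => (F j).isOpen) (fun j => (F j).nonempty) (fun j => (F j).analytic) (fun j => (F j).det_ne)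
    (fun j => (F j).c_ne) (fun j => (F j).eqn) hF k hk ε hε

end

end Pool.Agent.Results.MP_bbe012_lc.LinearAlgebraTest
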