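import Pool.Agent.Helper264.NT.NearTab

/-!
# Near almost every point equality of periods is decided by linear algebra at all algebraic parameters

Let `F_j`, `j` in a finite set, be families of varieties (or of mixed motives) over open parts of affine spaces of any
dimensions. A family (`Family X ι`) is given here by an algebraic connection `c ∂_i Y = Y B_i` with an invertible matrix `Y` of
analytic solutions on a nonempty connected open set: a branch of the period matrix, and its Gauss-Manin connection. `galois` is
the group of the constant matrices `g` such that all polynomial relations over `ℂ[x]` between the entries of `Y` are relations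
between the entries of `g Y` (the Zariski closure of the monodromy group). We assume that it is connected, as is the case after
a finite covering of the base. Let `ξ_0, ξ_1, …` be arbitrary complex constants, for example the powers of `2 π i`, or any
periods. An expression of level `k` is a tuple of polynomials `P_i`, `i < k`; its value at a point `x` of the product of the
bases is `∑ ξ_i P_i(Y(x))`. If `x` and the coefficients of the `P_i` are algebraic numbers and the `ξ_i` are periods then this
is a period.

**The test** (as in the result `LinearAlgebraTest` on this problem). For every `k` there is a finite table `R` of relations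
`∑ ξ_i R_{a,i}(x, Y(x)) = 0` between the period functions, with coefficients in `ℚ̄[x]`. Given two expressions `P₁`, `P₂` with
algebraic coefficients, an algebraic point `x` and approximations `v₁`, `v₂` of the two values with error at most `δ`, the test
answers `true` (equal) if `P₁ - P₂` is a linear combination of the rows `R_a(x, ·)` of the table at the point `x`: this is a
system of linear equations over a number field. If it is not and `‖v₁ - v₂‖ > 2 δ` then it answers `false` (not equal), and
otherwise `none`. The algorithm computes the periods with increasing precision and applies the test until it answers.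

**Theorem.** The answers of the test are always correct. There is a set `E` in `ℂ^d`, `d` the number of the parameters, of
Hausdorff dimension at most `2 d - 2` such that for all `z` outside of `E`, all `w > 0` (arbitrarily small), all number fields
`K` and all `k`, for large `T`, the algorithm halts, with the correct answer, at ALL points with coordinates in `K` of height at
most `T` at distance at most `T ^ (-w)` from `z`, for ALL pairs of expressions over `K` of level `k`, of partial degrees at most
`k` and with coefficients at most `T ^ k / 2`. For real points `z` the same holds outside of a set in `ℝ^d` of dimension at most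
`d - 1`. In the result `LinearAlgebraTest` there are exceptional points over `K`, on few hypersurfaces; near `z` there are none.
-/

set_option autoImplicit false

open Filter NumberField
open scoped ENNReal

namespace Pool.Agent.Results.MP_bbe012_lc.TestNearEveryPoint

/-- an algebraic connection on the affine space `ℂ ^ X` with a fundamental matrix `Y` of analytic solutions on `U` -/
structure Family (X ι : Type) [Fintype X] [DecidableEq X] [Fintype ι] [DecidableEq ι] where
  /-- a nonempty connected open set -/
  U : Set (X → ℂ)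
  isOpen : IsOpen U
  connected : IsPreconnected U
  nonempty : U.Nonempty
  /-- the matrix of the solutions (periods) -/
  Y : (X → ℂ) → Matrix ι ι ℂ
  analytic : ∀ a b, AnalyticOnNhd ℂ (fun x => Y x a b) U
  det_ne : ∀ x ∈ U, (Y x).det ≠ 0
  /-- the common denominator of the connection -/
  c : MvPolynomial X ℂ
  c_ne : c ≠ 0
  /-- the numerators -/
  B : X → Matrix ι ι (MvPolynomial X ℂ)
  /-- `c ∂_i Y = Y B_i` -/
  eqn : ∀ x ∈ U, ∀ i a b, MvPolynomial.eval x c * fderiv ℂ (fun x => Y x a b) x (Pi.single i 1) =
    ∑ e, Y x a e * MvPolynomial.eval x (B i e b)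

section
variable {X ι : Type} [Fintype X] [DecidableEq X] [Fintype ι] [DecidableEq ι]

/-- all polynomial relations between the entries of `Y` over `ℂ[x]` are relations between the entries of `g Y` -/
def Preserves (F : Family X ι) (g : Matrix ι ι ℂ) : Prop :=
  ∀ p : MvPolynomial (ι × ι) (MvPolynomial X ℂ),
    (∀ x ∈ F.U, MvPolynomial.eval₂ (MvPolynomial.eval x) (fun v => F.Y x v.1 v.2) p = 0) →
    ∀ x ∈ F.U, MvPolynomial.eval₂ (MvPolynomial.eval x) (fun v => (g * F.Y x) v.1 v.2) p = 0

/-- the Galois group -/
def Family.galois (F : Family X ι) : Subgroup (GL ι ℂ) where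
  carrier := {g | Preserves F (g : Matrix ι ι ℂ)}
  mul_mem' := fun ha hb => (Pool.Agent.V11273.PV.Gal F.U F.Y).mul_mem' ha hb
  one_mem' := (Pool.Agent.V11273.PV.Gal F.U F.Y).one_mem'
  inv_mem' := fun ha => (Pool.Agent.V11273.PV.Gal F.U F.Y).inv_mem' ha

/-- subgroups of finite index which are defined by polynomial equations are the whole group -/
def Connected (G : Subgroup (GL ι ℂ)) : Prop :=
  ∀ H : Subgroup G, H.FiniteIndex → (∃ E : Set (MvPolynomial (ι × ι) ℂ), ∀ h : G, h ∈ H ↔
    ∀ e ∈ E, MvPolynomial.eval (fun v => ((h : GL ι ℂ) : Matrix ι ι ℂ) v.1 v.2) e = 0) → H = ⊤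

end

/-- the field of algebraic numbers -/
abbrev Qbar : Type := algebraicClosure ℚ ℂ

/-- the value at `x` of a polynomial in the coordinates over the algebraic numbers -/
noncomputable def atP {X : Type} (x : X → ℂ) : MvPolynomial X Qbar →+* ℂ :=
  (MvPolynomial.aeval x : MvPolynomial X Qbar →ₐ[Qbar] ℂ).toRingHom

/-- quotients of two integers of `K`, all conjugates of which are at most `T` -/
def HeightLe (K : Type) [Field K] [NumberField K] (T : ℝ) (x : K) : Prop :=
  ∃ a b : 𝓞 K, b ≠ 0 ∧ house (a : K) ≤ T ∧ house (b : K) ≤ T ∧ x = a / b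

/-- A table with `m` rows `R a`; the row `R a` is a tuple of `k` polynomials in the names `σ` of the periods, with coefficients
in `ℚ̄[x]`. -/
abbrev Table (X σ : Type) (m k : ℕ) : Type := Fin m → Fin k → MvPolynomial σ (MvPolynomial X Qbar)

/-- the row `a` of the table at the point `x` -/
noncomputable def row {X σ : Type} {m k : ℕ} (R : Table X σ m k) (x : X → ℂ) (a : Fin m) : Fin k → MvPolynomial σ ℂ :=
  fun i => (R a i).map (atP x)

open Classical in
/-- The test at the point `x`. Input: two expressions and approximations `v₁`, `v₂` of their values with error at most `δ`. It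
answers `true` (equal) if the difference is a linear combination of the rows of the table at `x`, `false` (not equal) if it is
not and `‖v₁ - v₂‖ > 2 δ`, and `none` (no answer) otherwise. -/
noncomputable def test {X σ : Type} {m k : ℕ} (R : Table X σ m k) (x : X → ℂ) (P₁ P₂ : Fin k → MvPolynomial σ ℂ)
    (v₁ v₂ : ℂ) (δ : ℝ) : Option Bool :=
  if P₁ - P₂ ∈ Submodule.span ℂ (Set.range (row R x)) then some true else
    if 2 * δ < ‖v₁ - v₂‖ then some false else none

section
variable {κ : Type} [Fintype κ] [DecidableEq κ] {X ι : κ → Type} [∀ j, Fintype (X j)] [∀ j, DecidableEq (X j)]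
  [∀ j, Fintype (ι j)] [∀ j, DecidableEq (ι j)]

/-- the tuples of points of the domains of the families -/
def domain (F : ∀ j, Family (X j) (ι j)) : Set ((Σ j, X j) → ℂ) := {z | ∀ j, (fun i => z ⟨j, i⟩) ∈ (F j).U}

/-- the periods of the fibres at `x_j`: the entries of the matrices `Y_j(x_j)` -/
def periods (F : ∀ j, Family (X j) (ι j)) (x : (Σ j, X j) → ℂ) (v : Σ j, ι j × ι j) : ℂ :=
  (F v.1).Y (fun i => x ⟨v.1, i⟩) v.2.1 v.2.2

/-- the value `∑ ξ i * P i (periods at x)` at the point `x` of the expression `P` -/
noncomputable def value (F : ∀ j, Family (X j) (ι j)) {k : ℕ} (ξ : Fin k → ℂ) (x : (Σ j, X j) → ℂ)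
    (P : Fin k → MvPolynomial (Σ j, ι j × ι j) ℂ) : ℂ :=
  ∑ i, ξ i * MvPolynomial.eval (periods F x) (P i)

/-- an expression with coefficients in the integers of `K`, embedded in `ℂ` -/
noncomputable def embed {σ K : Type} [Field K] [NumberField K] (io : K →+* ℂ) {k : ℕ} (P : Fin k → MvPolynomial σ (𝓞 K)) :
    Fin k → MvPolynomial σ ℂ :=
  fun i => (P i).map (io.comp (algebraMap (𝓞 K) K))

/-- the first `k` constants -/
def first (ξ : ℕ → ℂ) (k : ℕ) : Fin k → ℂ := fun i => ξ i

/-- At all points `s` with coordinates in the number field `K` (embedded into `ℂ` by `io`) of height at most `T` and with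
`|s i - z i| ≤ T ^ (-w)` for all `i`, for all pairs of expressions over the integers of `K`, of partial degrees at most `k` and
with coefficients all conjugates of which are at most `T ^ k / 2`, there is a precision `δ > 0` such that the test with the
table `R` gives an answer for all approximations of the two values with error at most `δ`. -/
def AnswersNear (F : ∀ j, Family (X j) (ι j)) {m : ℕ} (k : ℕ) (ξ : Fin k → ℂ)
    (R : Table (Σ j, X j) (Σ j, ι j × ι j) m k) (z : (Σ j, X j) → ℂ) (w : ℝ) (K : Type) [Field K] [NumberField K]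
    (io : K →+* ℂ) (T : ℝ) : Prop :=
  ∀ s : (Σ j, X j) → K, (∀ i, HeightLe K T (s i)) → (∀ i, ‖io (s i) - z i‖ ≤ T ^ (-w)) →
    ∀ P₁ P₂ : Fin k → MvPolynomial (Σ j, ι j × ι j) (𝓞 K),
      (∀ i v, (P₁ i).degreeOf v ≤ k ∧ (P₂ i).degreeOf v ≤ k) →
      (∀ i m (φ : K →+* ℂ), ‖φ (((P₁ i).coeff m : 𝓞 K) : K)‖ ≤ T ^ (k : ℝ) / 2 ∧
        ‖φ (((P₂ i).coeff m : 𝓞 K) : K)‖ ≤ T ^ (k : ℝ) / 2) →
      ∃ δ : ℝ, 0 < δ ∧ ∀ v₁ v₂ : ℂ,
        ‖v₁ - value F ξ (fun i => io (s i)) (embed io P₁)‖ ≤ δ →
        ‖v₂ - value F ξ (fun i => io (s i)) (embed io P₂)‖ ≤ δ →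
        test R (fun i => io (s i)) (embed io P₁) (embed io P₂) v₁ v₂ δ ≠ none

lemma answers_of (F : ∀ j, Family (X j) (ι j)) {m k : ℕ} {ξ : Fin k → ℂ}
    {R : Table (Σ j, X j) (Σ j, ι j × ι j) m k} {z : (Σ j, X j) → ℂ} {w : ℝ} {K : Type} [Field K] [NumberField K]
    {io : K →+* ℂ} {T : ℝ}
    (h : ∀ s : (Σ j, X j) → K, (∀ i, Y120.HtLe K T (s i)) → (∀ i, ‖io (s i) - z i‖ ≤ T ^ (-w)) →
      ¬ Pool.Agent.Helper264.NT.RelT (Pool.Agent.V11273.PV.fE fun j => (F j).Y) k ξ R K io s T) :
    AnswersNear F k ξ R z w K io T := by
  intro s hs hsz P₁ P₂ h1 h2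
  by_contra h3
  push Not at h3
  exact h s hs hsz ⟨P₁, P₂, h1, h2, h3⟩

/-- **Theorem.** Let `F_j`, `j` in a finite set, be families with connected Galois groups, `d` the dimension of the product of
their bases, and `ξ i` any complex numbers. There are finite tables `R k` with the following properties.
(0) The test with the table `R k` is never wrong, at any point of the domain and for any two expressions.
(1) There is a set `E` in `ℂ ^ d` of Hausdorff dimension at most `2 (d - 1)` such that for all `z` in the domain outside of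
`E`, all `w > 0`, all number fields `K ⊂ ℂ` and all `k`, the test with the table `R k` answers at all points over `K` near `z`
(`AnswersNear`), for all large `T`.
(2) There is a set `E` in `ℝ ^ d` of Hausdorff dimension at most `d - 1` such that for all real `z` in the domain outside
of `E`, all `w > 0`, all number fields `K ⊂ ℝ` and all `k`, the test with the table `R k` answers at all points over `K`
near `z`, for all large `T`. -/
theorem result [Nonempty (Σ j, X j)] (F : ∀ j, Family (X j) (ι j)) (hF : ∀ j, Connected (F j).galois) (ξ : ℕ → ℂ) :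
    ∃ (M : ℕ → ℕ) (R : ∀ k, Table (Σ j, X j) (Σ j, ι j × ι j) (M k) k),
      (∀ k : ℕ, ∀ x ∈ domain F, ∀ (P₁ P₂ : Fin k → MvPolynomial (Σ j, ι j × ι j) ℂ) (v₁ v₂ : ℂ) (δ : ℝ),
        ‖v₁ - value F (first ξ k) x P₁‖ ≤ δ → ‖v₂ - value F (first ξ k) x P₂‖ ≤ δ →
        (test (R k) x P₁ P₂ v₁ v₂ δ = some true → value F (first ξ k) x P₁ = value F (first ξ k) x P₂) ∧
        (test (R k) x P₁ P₂ v₁ v₂ δ = some false → value F (first ξ k) x P₁ ≠ value F (first ξ k) x P₂)) ∧
      (∃ E : Set ((Σ j, X j) → ℂ), dimH E ≤ ((2 * (Fintype.card (Σ j, X j) - 1) : ℕ) : ℝ≥0∞) ∧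
        ∀ z ∈ domain F, z ∉ E → ∀ w : ℝ, 0 < w → ∀ (K : IntermediateField ℚ ℂ) [NumberField K], ∀ k : ℕ,
          ∀ᶠ T : ℝ in atTop, AnswersNear F k (first ξ k) (R k) z w K (algebraMap K ℂ) T) ∧
      ∃ E : Set ((Σ j, X j) → ℝ), dimH E ≤ ((Fintype.card (Σ j, X j) - 1 : ℕ) : ℝ≥0∞) ∧
        ∀ z : (Σ j, X j) → ℝ, (fun i => (z i : ℂ)) ∈ domain F → z ∉ E → ∀ w : ℝ, 0 < w →
          ∀ (K : IntermediateField ℚ ℝ) [NumberField K], ∀ k : ℕ, ∀ᶠ T : ℝ in atTop,
            AnswersNear F k (first ξ k) (R k) (fun i => (z i : ℂ)) w K
              (Complex.ofRealHom.comp (algebraMap K ℝ)) T := by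
  have hreg := Pool.Agent.V11273.PV.reg_prod (U := fun j => (F j).U) (Y := fun j => (F j).Y)
    (fun j => (F j).connected) (fun j => (F j).isOpen) (fun j => (F j).nonempty) (fun j => (F j).analytic)
    (fun j => (F j).det_ne) (fun j => (F j).c_ne) (fun j => (F j).eqn) hF
  have hreg' : Pool.Agent.Y890.MV.RegularM (Pool.Agent.V11273.PV.UU fun j => (F j).U)
      (Pool.Agent.V11273.PV.fE fun j => (F j).Y) := by
    have h1 := Pool.Agent.V11273.PV.RegularM_comp hreg
      (fun s : Σ j, ι j × ι j => (((⟨s.1, s.2.1⟩ : Σ j, ι j), (⟨s.1, s.2.2⟩ : Σ j, ι j))))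
    have h2 : (fun (s : Σ j, ι j × ι j) (z : (Σ j, X j) → ℂ) =>
        Pool.Agent.V11273.PV.YY (fun j => (F j).Y) z ⟨s.1, s.2.1⟩ ⟨s.1, s.2.2⟩) =
        Pool.Agent.V11273.PV.fE fun j => (F j).Y := by
      funext s z
      exact Pool.Agent.V11273.PV.YY_eq z s.1 s.2.1 s.2.2
    rw [← h2]
    exact h1
  obtain ⟨M, R, h0, ⟨E, hE, h⟩, ⟨E', hE', h'⟩⟩ := Pool.Agent.Helper264.NT.near_tab
    (Pool.Agent.V11273.PV.UU_preconn fun j => (F j).connected) (Pool.Agent.V11273.PV.UU_open fun j => (F j).isOpen)
    (Pool.Agent.V11273.PV.UU_ne fun j => (F j).nonempty) (Pool.Agent.V11273.PV.fE_an fun j => (F j).analytic) hreg' ξ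
  refine ⟨M, R, h0, ⟨E, hE, fun z hz hzE w hw K _ k => ?_⟩, ⟨E', hE', fun z hz hzE w hw K _ k => ?_⟩⟩
  · filter_upwards [h z hz hzE w hw K k] with T hT
    exact answers_of F hT
  · filter_upwards [h' z hz hzE w hw K k] with T hT
    exact answers_of F hT

end

end Pool.Agent.Results.MP_bbe012_lc.TestNearEveryPoint
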